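import Pool.Agent.X234.WG.Hyp

/-!
# Classes of functions modulo powers of `p`
-/

set_option autoImplicit false

namespace Pool.Agent.X234.WG

open Finset Pool.Agent.H623R3.SW

variable {p : ℕ} [hp : Fact p.Prime]

/-- affine modulo `p ^ 2` with slope divisible by `p` -/
def A2 (φ : ℤ_[p] → ℤ_[p]) : Prop :=
  ∃ c0 c1 : ℤ_[p], ∀ t, (p : ℤ_[p]) ^ 2 ∣ φ t - (c0 + p * c1 * t)

/-- affine modulo `p ^ 3` with slope divisible by `p ^ 2` -/
def A3 (φ : ℤ_[p] → ℤ_[p]) : Prop :=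
  ∃ c0 c1 : ℤ_[p], ∀ t, (p : ℤ_[p]) ^ 3 ∣ φ t - (c0 + p ^ 2 * c1 * t)

lemma A2.lin (u v : ℤ_[p]) : A2 (p := p) (fun t => u + p * v * t) :=
  ⟨u, v, fun t => by simp⟩

lemma A2.const (u : ℤ_[p]) : A2 (p := p) (fun _ => u) :=
  ⟨u, 0, fun t => by simp⟩

lemma A2.add {φ ψ : ℤ_[p] → ℤ_[p]} (h1 : A2 φ) (h2 : A2 ψ) : A2 (fun t => φ t + ψ t) := by
  obtain ⟨a, b, h1⟩ := h1
  obtain ⟨c, d, h2⟩ := h2
  refine ⟨a + c, b + d, fun t => ?_⟩
  obtain ⟨x, hx⟩ := h1 t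
  obtain ⟨y, hy⟩ := h2 t
  exact ⟨x + y, by linear_combination hx + hy⟩

lemma A2.mul {φ ψ : ℤ_[p] → ℤ_[p]} (h1 : A2 φ) (h2 : A2 ψ) : A2 (fun t => φ t * ψ t) := by
  obtain ⟨a, b, h1⟩ := h1
  obtain ⟨c, d, h2⟩ := h2
  refine ⟨a * c, a * d + b * c, fun t => ?_⟩
  obtain ⟨x, hx⟩ := h1 t
  obtain ⟨y, hy⟩ := h2 t
  exact ⟨x * ψ t + (a + p * b * t) * y + b * d * t ^ 2, by
    linear_combination ψ t * hx + (a + p * b * t) * hy⟩

lemma A2.prod {f : ℕ → ℤ_[p] → ℤ_[p]} (n : ℕ) (h : ∀ i < n, A2 (f i)) :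
    A2 (fun t => ∏ i ∈ range n, f i t) := by
  induction n with
  | zero => simpa using A2.const (p := p) 1
  | succ n ih =>
    have := (ih fun i hi => h i (by omega)).mul (h n (by omega))
    simpa [prod_range_succ] using this

lemma A2.sum {f : ℕ → ℤ_[p] → ℤ_[p]} (n : ℕ) (h : ∀ i < n, A2 (f i)) :
    A2 (fun t => ∑ i ∈ range n, f i t) := by
  induction n with
  | zero => simpa using A2.const (p := p) 0
  | succ n ih =>
    have := (ih fun i hi => h i (by omega)).add (h n (by omega))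
    simpa [sum_range_succ] using this

lemma A3.mul {φ ψ : ℤ_[p] → ℤ_[p]} (h1 : A3 φ) (h2 : A3 ψ) : A3 (fun t => φ t * ψ t) := by
  obtain ⟨a, b, h1⟩ := h1
  obtain ⟨c, d, h2⟩ := h2
  refine ⟨a * c, a * d + b * c, fun t => ?_⟩
  obtain ⟨x, hx⟩ := h1 t
  obtain ⟨y, hy⟩ := h2 t
  exact ⟨x * ψ t + (a + p ^ 2 * b * t) * y + p * b * d * t ^ 2, by
    linear_combination ψ t * hx + (a + p ^ 2 * b * t) * hy⟩

lemma isUnit_of_not_dvd {x : ℤ_[p]} (h : ¬ (p : ℤ_[p]) ∣ x) : IsUnit x := by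
  rw [PadicInt.isUnit_iff]
  by_contra hne
  have hlt : ‖x‖ < 1 := lt_of_le_of_ne (PadicInt.norm_le_one _) hne
  exact h ((PadicInt.norm_lt_one_iff_dvd x).mp hlt)

lemma PP_isUnit {n : ℕ} (hn : n < p) (s : ℤ_[p]) : IsUnit (PP p n s) := by
  induction n with
  | zero => simp [PP]
  | succ n ih =>
    rw [PP_succ]
    exact (ih (by omega)).mul (isUnit_of_not_dvd (not_dvd_add hn s))

lemma ratio1 (h : ℤ_[p]) (n : ℕ) (hn : n + 1 < p) : ∃ ψ : ℤ_[p] → ℤ_[p], A3 ψ ∧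
    ∀ t, (p : ℤ_[p]) ^ 3 ∣ ((n : ℤ_[p]) + 1 + p * (h * t)) -
      ((n : ℤ_[p]) + 1 + p * (h * (t - 1))) * ψ t := by
  obtain ⟨u, hu⟩ := (isUnit_of_not_dvd (not_dvd_add hn (-h)) : IsUnit ((n : ℤ_[p]) + 1 + p * (-h)))
  have hi : ((n : ℤ_[p]) + 1 + p * (-h)) * ((u⁻¹ : ℤ_[p]ˣ) : ℤ_[p]) = 1 := by
    rw [← hu, Units.mul_inv]
  generalize ((u⁻¹ : ℤ_[p]ˣ) : ℤ_[p]) = ι at hi
  refine ⟨fun t => ((n : ℤ_[p]) + 1) * ι + p ^ 2 * (-(h ^ 2 * ι ^ 2)) * t,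
    ⟨((n : ℤ_[p]) + 1) * ι, -(h ^ 2 * ι ^ 2), fun t => by simp⟩, fun t => ?_⟩
  refine ⟨h ^ 3 * ι ^ 2 * t ^ 2, ?_⟩
  simp only
  linear_combination (-((n : ℤ_[p]) + 1) - p * h * t + p ^ 2 * h ^ 2 * ι * t) * hi

lemma ratio (h : ℤ_[p]) (n : ℕ) (hn : n < p) : ∃ Ψ : ℤ_[p] → ℤ_[p], A3 Ψ ∧
    ∀ t, (p : ℤ_[p]) ^ 3 ∣ PP p n (h * t) - PP p n (h * (t - 1)) * Ψ t := by
  induction n with
  | zero =>
    exact ⟨fun _ => 1, ⟨1, 0, fun t => by simp⟩, fun t => by simp [PP]⟩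
  | succ n ih =>
    obtain ⟨Ψ, h1, h2⟩ := ih (by omega)
    obtain ⟨ψ, h3, h4⟩ := ratio1 h n hn
    refine ⟨fun t => Ψ t * ψ t, h1.mul h3, fun t => ?_⟩
    obtain ⟨x, hx⟩ := h2 t
    obtain ⟨y, hy⟩ := h4 t
    rw [PP_succ, PP_succ]
    exact ⟨x * ((n : ℤ_[p]) + 1 + p * (h * t)) + PP p n (h * (t - 1)) * Ψ t * y, by
      linear_combination ((n : ℤ_[p]) + 1 + p * (h * t)) * hx +
        PP p n (h * (t - 1)) * Ψ t * hy⟩

/-- shifted product -/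
noncomputable def QQ (p : ℕ) [Fact p.Prime] (n m : ℕ) (s : ℤ_[p]) : ℤ_[p] :=
  ∏ j ∈ range m, (((n + j : ℕ) : ℤ_[p]) + 1 + p * s)

lemma PP_add (n m : ℕ) (s : ℤ_[p]) : PP p (n + m) s = PP p n s * QQ p n m s := by
  unfold PP QQ
  rw [prod_range_add]

lemma TT_eq (h : ℤ_[p]) (h2 : 2 * h = 1) (m n : ℕ) (hm : p = 2 * m + 1) (t : ℤ_[p]) :
    TT p m (((2 * n : ℕ) : ℤ_[p]) + p * t) =
      (-4) ^ m * (QQ p n m (h * t) * QQ p n m (h * (t - 1))) := by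
  have hpp := hp.out.two_le
  rw [TT_closed p m (by omega)]
  have h1 : ∏ j ∈ range m, ((2 * (j : ℤ_[p]) + 1 - (((2 * n : ℕ) : ℤ_[p]) + p * t)) *
      (2 * j + 2 + (((2 * n : ℕ) : ℤ_[p]) + p * t))) =
      (∏ j ∈ range m, (2 * (j : ℤ_[p]) + 1 - (((2 * n : ℕ) : ℤ_[p]) + p * t))) *
      ∏ j ∈ range m, (2 * j + 2 + (((2 * n : ℕ) : ℤ_[p]) + p * t)) := prod_mul_distrib
  have e1 : ∏ j ∈ range m, (2 * (j : ℤ_[p]) + 2 + (((2 * n : ℕ) : ℤ_[p]) + p * t)) =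
      2 ^ m * QQ p n m (h * t) := by
    unfold QQ
    rw [← card_range m, ← prod_const, card_range, ← prod_mul_distrib]
    refine prod_congr rfl fun j _ => ?_
    push_cast
    linear_combination (-(p : ℤ_[p]) * t) * h2
  have e2 : ∏ j ∈ range m, (2 * (j : ℤ_[p]) + 1 - (((2 * n : ℕ) : ℤ_[p]) + p * t)) =
      (-2) ^ m * QQ p n m (h * (t - 1)) := by
    unfold QQ
    rw [← prod_range_reflect, ← card_range m, ← prod_const, card_range, ← prod_mul_distrib]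
    refine prod_congr rfl fun j hj => ?_
    have hj' := mem_range.mp hj
    have hc : ((m - 1 - j : ℕ) : ℤ_[p]) = m - 1 - j := by
      rw [Nat.cast_sub (by omega), Nat.cast_sub (by omega)]; simp
    have hpm : (p : ℤ_[p]) = 2 * m + 1 := by exact_mod_cast congrArg (Nat.cast (R := ℤ_[p])) hm
    rw [hc]
    push_cast
    linear_combination (p : ℤ_[p]) * (t - 1) * h2 - hpm
  rw [h1, e1, e2, show (-4 : ℤ_[p]) = (-2) * 2 by norm_num, mul_pow]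
  ring

lemma prod_congr_mod (f g : ℕ → ℤ_[p]) (x : ℤ_[p]) (n : ℕ) (h : ∀ i < n, x ∣ f i - g i) :
    x ∣ ∏ i ∈ range n, f i - ∏ i ∈ range n, g i := by
  induction n with
  | zero => simp
  | succ n ih =>
    obtain ⟨a, ha⟩ := ih fun i hi => h i (by omega)
    obtain ⟨b, hb⟩ := h n (by omega)
    rw [prod_range_succ, prod_range_succ]
    exact ⟨a * f n + (∏ i ∈ range n, g i) * b, by
      linear_combination f n * ha + (∏ i ∈ range n, g i) * hb⟩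

lemma delta_dvd (h : ℤ_[p]) (h2 : 2 * h = 1) (m k : ℕ) (hm : p = 2 * m + 1) (hk : k < p) :
    (p : ℤ_[p]) ∣ ck p h k - tk p m k * I p (2 * m) := by
  have hpm : (p : ℤ_[p]) = 2 * m + 1 := by exact_mod_cast congrArg (Nat.cast (R := ℤ_[p])) hm
  have h1 : ((2 * m).factorial : ℤ_[p]) =
      ((2 * m - k).factorial : ℤ_[p]) * ∏ i ∈ range k, ((2 * m : ℤ_[p]) - i) := by
    have e : ((2 * m).factorial : ℤ_[p]) = (((2 * m - k).factorial * (2 * m).descFactorial k : ℕ) : ℤ_[p]) := by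
      rw [Nat.factorial_mul_descFactorial (by omega)]
    rw [e, Nat.cast_mul, Nat.descFactorial_eq_prod_range, Nat.cast_prod]
    congr 1
    refine prod_congr rfl fun i hi => ?_
    have := mem_range.mp hi
    rw [Nat.cast_sub (by omega)]
    push_cast
    ring
  have h3 : (m.choose k : ℤ_[p]) * (k.factorial : ℤ_[p]) = ∏ i ∈ range k, ((m : ℤ_[p]) - i) := by
    have e : (m.choose k : ℤ_[p]) * (k.factorial : ℤ_[p]) = ((m.descFactorial k : ℕ) : ℤ_[p]) := by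
      rw [Nat.descFactorial_eq_factorial_mul_choose]
      push_cast
      ring
    rw [e]
    rcases Nat.lt_or_ge m k with hlt | hge
    · rw [Nat.descFactorial_eq_zero_iff_lt.mpr hlt, prod_eq_zero (mem_range.mpr hlt)]
      · simp
      · simp
    · rw [Nat.descFactorial_eq_prod_range, Nat.cast_prod]
      refine prod_congr rfl fun i hi => ?_
      have := mem_range.mp hi
      rw [Nat.cast_sub (by omega)]
  have h4 : (k.factorial : ℤ_[p]) = ∏ i ∈ range k, ((i : ℤ_[p]) + 1) := by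
    rw [← prod_range_add_one_eq_factorial]
    push_cast
    rfl
  have h5 : (p : ℤ_[p]) ∣ HK h k * ∏ i ∈ range k, ((2 * m : ℤ_[p]) - i) -
      (∏ i ∈ range k, ((m : ℤ_[p]) - i)) * (k.factorial : ℤ_[p]) := by
    rw [h4]
    unfold HK
    rw [← prod_mul_distrib, ← prod_mul_distrib]
    apply prod_congr_mod
    intro i _
    refine ⟨h * i, ?_⟩
    linear_combination (-(h * i) ) * hpm + ((m : ℤ_[p]) - (i : ℤ_[p]) * (1 + m)) * h2
  obtain ⟨c, hc⟩ := h5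
  have hI := fac_I p hk
  have hI2 := fac_I p (show 2 * m < p by omega)
  rw [h1] at hI2
  unfold ck tk
  rw [← h3] at hc
  generalize ∏ i ∈ range k, ((2 * m : ℤ_[p]) - i) = J at *
  generalize ((2 * m - k).factorial : ℤ_[p]) = D at *
  generalize I p (2 * m) = I2 at *
  generalize I p k = I1 at *
  generalize HK h k = HH at *
  generalize (k.factorial : ℤ_[p]) = K at *
  generalize (m.choose k : ℤ_[p]) = C at *
  refine ⟨c * I1 ^ 3 * D * I2, ?_⟩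
  linear_combination (I1 ^ 3 * D * I2) * hc - HH * I1 ^ 3 * hI2 +
    (C * D * I1 * I2 * (K * I1 + 1)) * hI

end Pool.Agent.X234.WG
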