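import Pool.Agent.H623R3.SW.Gm
import Pool.Agent.X234.SD.Basic

/-!
# Morita's gamma function: functional equation, reflection, behaviour modulo `p ^ 3`
-/

set_option autoImplicit false

namespace Pool.Agent.X234.WG

open Finset Pool.Agent.H623R3.SW

variable {p : ℕ} [hp : Fact p.Prime]

lemma exists_nat (x : ℤ_[p]) (M : ℕ) : ∃ n : ℕ, (p : ℤ_[p]) ^ M ∣ x - n :=
  ⟨x.appr M, Ideal.mem_span_singleton.mp (PadicInt.appr_spec M x)⟩

lemma eq_zero_of_forall {x : ℤ_[p]} (h : ∀ M : ℕ, (p : ℤ_[p]) ^ M ∣ x) : x = 0 := by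
  rw [← PadicInt.ext_of_toZModPow]
  intro n
  rw [map_zero]
  exact (pow_dvd_iff n x).mp (h n)

lemma near (hp2 : p ≠ 2) {G : ℤ_[p] → ℤ_[p]} (h : IsMorita p G) (x : ℤ_[p]) (n M : ℕ)
    (hx : (p : ℤ_[p]) ^ M ∣ x - n) : (p : ℤ_[p]) ^ M ∣ G x - ((mg p n : ℤ) : ℤ_[p]) :=
  dvd_of_norm_le _ _ (morita_near hp2 h x n) M hx

lemma near2 (hp2 : p ≠ 2) {G : ℤ_[p] → ℤ_[p]} (h : IsMorita p G) (x y : ℤ_[p]) (M : ℕ)
    (hx : (p : ℤ_[p]) ^ M ∣ x - y) : (p : ℤ_[p]) ^ M ∣ G x - G y := by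
  obtain ⟨n, hn⟩ := exists_nat y M
  have h1 := near hp2 h y n M hn
  have h2 := near hp2 h x n M (by
    have := dvd_add hx hn
    simpa using this)
  have := dvd_sub h2 h1
  simpa using this

lemma at_nat (hp2 : p ≠ 2) {G : ℤ_[p] → ℤ_[p]} (h : IsMorita p G) (n : ℕ) :
    G (n : ℤ_[p]) = ((mg p n : ℤ) : ℤ_[p]) := by
  have : G (n : ℤ_[p]) - ((mg p n : ℤ) : ℤ_[p]) = 0 :=
    eq_zero_of_forall fun M => near hp2 h _ n M (by simp)
  exact sub_eq_zero.mp this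

lemma mg_succ (n : ℕ) : ((mg p (n + 1) : ℤ) : ℤ_[p]) =
    -((if p ∣ n then (1 : ℤ_[p]) else (n : ℤ_[p])) * ((mg p n : ℤ) : ℤ_[p])) := by
  rw [mg_eq, mg_eq, prod_range_succ, pow_succ]
  ring

lemma dvd_nat_iff (n : ℕ) : (p : ℤ_[p]) ∣ (n : ℤ_[p]) ↔ p ∣ n := by
  constructor
  · intro h
    have h1 : ‖((n : ℤ) : ℤ_[p])‖ < 1 := by
      rw [← PadicInt.norm_lt_one_iff_dvd] at h
      simpa using h
    rw [PadicInt.norm_int_lt_one_iff_dvd] at h1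
    exact_mod_cast h1
  · rintro ⟨k, rfl⟩
    exact ⟨k, by push_cast; ring⟩

lemma dvd_congr {x : ℤ_[p]} {n M : ℕ} (hx : (p : ℤ_[p]) ^ (M + 1) ∣ x - n) :
    (p : ℤ_[p]) ∣ x ↔ p ∣ n := by
  have h1 : (p : ℤ_[p]) ∣ x - n := (dvd_pow_self _ (Nat.succ_ne_zero M)).trans hx
  rw [← dvd_nat_iff (p := p) n]
  constructor
  · intro h
    have := dvd_sub h h1
    simpa using this
  · intro h
    have := dvd_add h h1
    simpa using this

lemma fe_unit (hp2 : p ≠ 2) {G : ℤ_[p] → ℤ_[p]} (h : IsMorita p G) (x : ℤ_[p])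
    (hx : ¬ (p : ℤ_[p]) ∣ x) : G (x + 1) = -(x * G x) := by
  rw [← sub_eq_zero]
  apply eq_zero_of_forall
  intro M
  obtain ⟨n, hn⟩ := exists_nat x (M + 1)
  have hn0 : ¬ p ∣ n := fun hd => hx ((dvd_congr hn).mpr hd)
  have hn' : (p : ℤ_[p]) ^ M ∣ x - n := (pow_dvd_pow _ (Nat.le_succ M)).trans hn
  obtain ⟨a, ha⟩ := near hp2 h x n M hn'
  obtain ⟨b, hb⟩ := near hp2 h (x + 1) (n + 1) M (by push_cast; simpa using hn')
  obtain ⟨c, hc⟩ := hn'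
  rw [mg_succ, if_neg hn0] at hb
  refine ⟨b + x * a + ((mg p n : ℤ) : ℤ_[p]) * c, ?_⟩
  linear_combination hb + x * ha + ((mg p n : ℤ) : ℤ_[p]) * hc

lemma fe_dvd (hp2 : p ≠ 2) {G : ℤ_[p] → ℤ_[p]} (h : IsMorita p G) (x : ℤ_[p])
    (hx : (p : ℤ_[p]) ∣ x) : G (x + 1) = - G x := by
  rw [← sub_eq_zero]
  apply eq_zero_of_forall
  intro M
  obtain ⟨n, hn⟩ := exists_nat x (M + 1)
  have hn0 : p ∣ n := (dvd_congr hn).mp hx
  have hn' : (p : ℤ_[p]) ^ M ∣ x - n := (pow_dvd_pow _ (Nat.le_succ M)).trans hn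
  obtain ⟨a, ha⟩ := near hp2 h x n M hn'
  obtain ⟨b, hb⟩ := near hp2 h (x + 1) (n + 1) M (by push_cast; simpa using hn')
  rw [mg_succ, if_pos hn0] at hb
  refine ⟨b + a, ?_⟩
  linear_combination hb + ha

lemma G_zero (hp2 : p ≠ 2) {G : ℤ_[p] → ℤ_[p]} (h : IsMorita p G) : G 0 = 1 := by
  have := at_nat hp2 h 0
  simp [mg] at this
  simpa using this

lemma not_dvd_add {i : ℕ} (h : i + 1 < p) (s : ℤ_[p]) :
    ¬ (p : ℤ_[p]) ∣ ((i : ℤ_[p]) + 1 + p * s) := by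
  intro hd
  have h1 := dvd_sub hd (Dvd.intro s rfl : (p : ℤ_[p]) ∣ p * s)
  rw [add_sub_cancel_right] at h1
  have h2 : (p : ℤ_[p]) ∣ ((i + 1 : ℕ) : ℤ_[p]) := by push_cast; exact h1
  rw [dvd_nat_iff] at h2
  have := Nat.le_of_dvd (by omega) h2
  omega

/-- the product `∏_{j = 1}^{n} (j + p s)` -/
noncomputable def PP (p : ℕ) [Fact p.Prime] (n : ℕ) (s : ℤ_[p]) : ℤ_[p] :=
  ∏ j ∈ range n, ((j : ℤ_[p]) + 1 + p * s)

lemma PP_succ (n : ℕ) (s : ℤ_[p]) : PP p (n + 1) s = PP p n s * ((n : ℤ_[p]) + 1 + p * s) :=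
  prod_range_succ _ _

lemma G_add (hp2 : p ≠ 2) {G : ℤ_[p] → ℤ_[p]} (h : IsMorita p G) (s : ℤ_[p]) (n : ℕ)
    (hn : n < p) : G ((n : ℤ_[p]) + 1 + p * s) = (-1) ^ (n + 1) * PP p n s * G (p * s) := by
  induction n with
  | zero =>
    have h1 := fe_dvd hp2 h (p * s) (Dvd.intro s rfl)
    rw [show ((0 : ℕ) : ℤ_[p]) + 1 + p * s = p * s + 1 by push_cast; ring, h1]
    simp [PP]
  | succ n ih =>
    have h1 := fe_unit hp2 h _ (not_dvd_add (p := p) (i := n) (by omega) s)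
    rw [show (((n + 1 : ℕ) : ℤ_[p]) + 1 + p * s) = ((n : ℤ_[p]) + 1 + p * s) + 1 by
      push_cast; ring, h1, ih (by omega), PP_succ, pow_succ (-1 : ℤ_[p]) (n + 1)]
    ring

lemma PP_eq_R {n : ℕ} (hn : n < p) (s : ℤ_[p]) :
    PP p n s = (n.factorial : ℤ_[p]) * SD.R (p * s) (SD.w p) n := by
  induction n with
  | zero => simp [PP, SD.R]
  | succ n ih =>
    have h := SD.w_mul p (i := n) (by omega)
    rw [PP_succ, ih (by omega), SD.R_succ, Nat.factorial_succ]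
    push_cast
    linear_combination (-(n.factorial : ℤ_[p]) * SD.R (p * s) (SD.w p) n * p * s) * h

lemma PP_top (h3 : 3 < p) (s : ℤ_[p]) :
    (p : ℤ_[p]) ^ 3 ∣ PP p (p - 1) s - ((p - 1).factorial : ℤ_[p]) := by
  rw [PP_eq_R (by omega)]
  obtain ⟨t, ht⟩ := SD.R_expand (p * s) (SD.w p) (p - 1)
  obtain ⟨e, he⟩ := SD.dvd_E p h3
  obtain ⟨f, hf⟩ := SD.dvd_F p h3
  rw [ht, he, hf]
  exact ⟨((p - 1).factorial : ℤ_[p]) * (s * e + s ^ 2 * f + s ^ 3 * t), by ring⟩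

lemma phi_step (h3 : 3 < p) {G : ℤ_[p] → ℤ_[p]} (h : IsMorita p G) (s : ℤ_[p]) :
    (p : ℤ_[p]) ^ 3 ∣ G (p * (s + 1)) - (-((p - 1).factorial : ℤ_[p])) * G (p * s) := by
  have h1 := G_add (by omega) h s (p - 1) (by omega)
  have h2 : ((p - 1 : ℕ) : ℤ_[p]) + 1 = p := by
    rw [Nat.cast_sub (by omega)]; ring
  rw [h2, show (p : ℤ_[p]) + p * s = p * (s + 1) by ring,
    show p - 1 + 1 = p by omega, (hp.out.odd_of_ne_two (by omega)).neg_one_pow] at h1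
  obtain ⟨c, hc⟩ := PP_top h3 s
  exact ⟨-(c * G (p * s)), by rw [h1]; linear_combination (-G (p * s)) * hc⟩

lemma phi_add (h3 : 3 < p) {G : ℤ_[p] → ℤ_[p]} (h : IsMorita p G) (s u : ℤ_[p]) :
    (p : ℤ_[p]) ^ 3 ∣ G (p * (s + u)) - G (p * s) * G (p * u) := by
  have key : ∀ n : ℕ, (p : ℤ_[p]) ^ 3 ∣ G (p * ((n : ℤ_[p]) + u)) - G (p * (n : ℤ_[p])) * G (p * u) := by
    intro n
    induction n with
    | zero =>
      have := G_zero (by omega) h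
      simp [this]
    | succ n ih =>
      obtain ⟨a, ha⟩ := ih
      obtain ⟨b, hb⟩ := phi_step h3 h ((n : ℤ_[p]) + u)
      obtain ⟨c, hc⟩ := phi_step h3 h (n : ℤ_[p])
      refine ⟨b - c * G (p * u) + (-((p - 1).factorial : ℤ_[p])) * a, ?_⟩
      rw [show (((n + 1 : ℕ) : ℤ_[p]) + u) = (n : ℤ_[p]) + u + 1 by push_cast; ring,
        show (((n + 1 : ℕ) : ℤ_[p])) = (n : ℤ_[p]) + 1 by push_cast; ring]
      linear_combination hb - G (p * u) * hc + (-((p - 1).factorial : ℤ_[p])) * ha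
  obtain ⟨n, hn⟩ := exists_nat s 3
  obtain ⟨d, hd⟩ := hn
  obtain ⟨a, ha⟩ := near2 (by omega) h (p * (s + u)) (p * ((n : ℤ_[p]) + u)) 3
    ⟨p * d, by linear_combination (p : ℤ_[p]) * hd⟩
  obtain ⟨b, hb⟩ := near2 (by omega) h (p * s) (p * (n : ℤ_[p])) 3
    ⟨p * d, by linear_combination (p : ℤ_[p]) * hd⟩
  obtain ⟨c, hc⟩ := key n
  exact ⟨a - b * G (p * u) + c, by linear_combination ha - G (p * u) * hb + hc⟩

lemma eps_unit (hp2 : p ≠ 2) {G : ℤ_[p] → ℤ_[p]} (h : IsMorita p G) (x : ℤ_[p])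
    (hx : ¬ (p : ℤ_[p]) ∣ x) : G (x + 1) * G (-x) = -(G x * G (1 - x)) := by
  have h1 := fe_unit hp2 h x hx
  have h2 := fe_unit hp2 h (-x) (by rwa [dvd_neg])
  rw [show -x + 1 = 1 - x by ring] at h2
  rw [h1, h2]
  ring

lemma eps_dvd (hp2 : p ≠ 2) {G : ℤ_[p] → ℤ_[p]} (h : IsMorita p G) (x : ℤ_[p])
    (hx : (p : ℤ_[p]) ∣ x) : G (x + 1) * G (-x) = G x * G (1 - x) := by
  have h1 := fe_dvd hp2 h x hx
  have h2 := fe_dvd hp2 h (-x) (by rwa [dvd_neg])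
  rw [show -x + 1 = 1 - x by ring] at h2
  rw [h1, h2]
  ring

lemma eps_add (hp2 : p ≠ 2) {G : ℤ_[p] → ℤ_[p]} (h : IsMorita p G) (s : ℤ_[p]) (n : ℕ)
    (hn : n < p) : G ((n : ℤ_[p]) + 1 + p * s) * G (-(n : ℤ_[p]) - p * s) =
      (-1) ^ n * (G (p * s) * G (1 - p * s)) := by
  induction n with
  | zero =>
    have h1 := eps_dvd hp2 h (p * s) (Dvd.intro s rfl)
    rw [show ((0 : ℕ) : ℤ_[p]) + 1 + p * s = p * s + 1 by push_cast; ring,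
      show (-((0 : ℕ) : ℤ_[p]) - p * s) = -(p * s) by push_cast; ring, h1]
    simp
  | succ n ih =>
    have h1 := eps_unit hp2 h _ (not_dvd_add (p := p) (i := n) (by omega) s)
    rw [show (((n + 1 : ℕ) : ℤ_[p]) + 1 + p * s) = ((n : ℤ_[p]) + 1 + p * s) + 1 by
      push_cast; ring,
      show (-((n + 1 : ℕ) : ℤ_[p]) - p * s) = -((n : ℤ_[p]) + 1 + p * s) by push_cast; ring, h1,
      show (1 - ((n : ℤ_[p]) + 1 + p * s)) = (-(n : ℤ_[p]) - p * s) by ring, ih (by omega),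
      pow_succ]
    ring

lemma eps_base (hp2 : p ≠ 2) {G : ℤ_[p] → ℤ_[p]} (h : IsMorita p G) (s : ℤ_[p]) :
    G (p * s) * G (1 - p * s) = -1 := by
  have hpp := hp.out.two_le
  have step : ∀ s : ℤ_[p], G (p * (s + 1)) * G (1 - p * (s + 1)) = G (p * s) * G (1 - p * s) := by
    intro s
    have h1 := eps_add hp2 h s (p - 1) (by omega)
    have h2 : ((p - 1 : ℕ) : ℤ_[p]) = p - 1 := by
      rw [Nat.cast_sub (by omega)]; simp
    rw [h2, show (p : ℤ_[p]) - 1 + 1 + p * s = p * (s + 1) by ring,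
      show (-((p : ℤ_[p]) - 1) - p * s) = 1 - p * (s + 1) by ring,
      (Nat.Odd.sub_odd (hp.out.odd_of_ne_two hp2) odd_one).neg_one_pow, one_mul] at h1
    exact h1
  have key : ∀ n : ℕ, G (p * (n : ℤ_[p])) * G (1 - p * (n : ℤ_[p])) = -1 := by
    intro n
    induction n with
    | zero =>
      have h0 := G_zero hp2 h
      have h1 := fe_dvd hp2 h 0 (dvd_zero _)
      rw [zero_add] at h1
      simp [h0, h1]
    | succ n ih =>
      rw [show (((n + 1 : ℕ) : ℤ_[p])) = (n : ℤ_[p]) + 1 by push_cast; ring, step, ih]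
  rw [← sub_eq_zero]
  apply eq_zero_of_forall
  intro M
  obtain ⟨n, hn⟩ := exists_nat s M
  obtain ⟨d, hd⟩ := hn
  obtain ⟨a, ha⟩ := near2 hp2 h (p * s) (p * (n : ℤ_[p])) M
    ⟨p * d, by linear_combination (p : ℤ_[p]) * hd⟩
  obtain ⟨b, hb⟩ := near2 hp2 h (1 - p * s) (1 - p * (n : ℤ_[p])) M
    ⟨-(p * d), by linear_combination (-(p : ℤ_[p])) * hd⟩
  exact ⟨a * G (1 - p * s) + G (p * (n : ℤ_[p])) * b,
    by linear_combination G (1 - p * s) * ha + G (p * (n : ℤ_[p])) * hb + key n⟩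

lemma refl' (hp2 : p ≠ 2) {G : ℤ_[p] → ℤ_[p]} (h : IsMorita p G) (s : ℤ_[p]) (n : ℕ)
    (hn : n < p) : G ((n : ℤ_[p]) + 1 + p * s) * G (-(n : ℤ_[p]) - p * s) = (-1) ^ (n + 1) := by
  rw [eps_add hp2 h s n hn, eps_base hp2 h, pow_succ]

end Pool.Agent.X234.WG
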