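import Pool.Agent.X234.WG.Gamma

/-!
# The truncated sum and its closed companion
-/

set_option autoImplicit false

namespace Pool.Agent.X234.WG

open Finset

section ring

variable {A : Type*} [CommRing A]

/-- `(-a)_k (a+1)_k` -/
def PK (a : A) (k : ℕ) : A := ∏ i ∈ range k, (((i : A) - a) * (a + 1 + i))

/-- `(h)_k` -/
def HK (h : A) (k : ℕ) : A := ∏ i ∈ range k, (h + i)

def BK (a : A) (k : ℕ) : A := ∏ i ∈ range k, (((i : A) - a - 2) * (a + 1 + i))

lemma PK_succ (a : A) (k : ℕ) : PK a (k + 1) = PK a k * (((k : A) - a) * (a + 1 + k)) :=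
  prod_range_succ _ _
lemma HK_succ (h : A) (k : ℕ) : HK h (k + 1) = HK h k * (h + k) := prod_range_succ _ _
lemma BK_succ (a : A) (k : ℕ) : BK a (k + 1) = BK a k * (((k : A) - a - 2) * (a + 1 + k)) :=
  prod_range_succ _ _

lemma PK_symm (a : A) (k : ℕ) : PK (-1 - a) k = PK a k := by
  unfold PK
  exact prod_congr rfl fun i _ => by ring

lemma PK_base (a : A) (k : ℕ) :
    (a + 1) * (a + 2) * PK a k = BK a k * ((a + 2 - k) * (a + 1 - k)) := by
  induction k with
  | zero => simp [PK, BK]; ring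
  | succ k ih =>
    rw [PK_succ, BK_succ, ← mul_assoc, ih]
    push_cast
    ring

lemma PK_base2 (a : A) (k : ℕ) :
    (a + 1) * (a + 2) * PK (a + 2) k = BK a k * ((a + 1 + k) * (a + 2 + k)) := by
  induction k with
  | zero => simp [PK, BK]
  | succ k ih =>
    rw [PK_succ, BK_succ, ← mul_assoc, ih]
    push_cast
    ring

end ring

variable (p : ℕ) [hp : Fact p.Prime]

/-- inverse of `k!` -/
noncomputable def I (k : ℕ) : ℤ_[p] := ∏ i ∈ range k, SD.w p i

lemma I_succ (k : ℕ) : I p (k + 1) = I p k * SD.w p k := prod_range_succ _ _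

lemma fac_I {k : ℕ} (hk : k < p) : (k.factorial : ℤ_[p]) * I p k = 1 := by
  induction k with
  | zero => simp [I]
  | succ k ih =>
    rw [I_succ, Nat.factorial_succ]
    push_cast
    linear_combination ((k : ℤ_[p]) + 1) * SD.w p k * ih (by omega) + SD.w_mul p hk

noncomputable def ck (h : ℤ_[p]) (k : ℕ) : ℤ_[p] := HK h k * I p k ^ 3

lemma ck_succ (h : ℤ_[p]) {k : ℕ} (hk : k + 1 < p) :
    ck p h (k + 1) * ((k : ℤ_[p]) + 1) ^ 3 = ck p h k * (h + k) := by
  have h1 := SD.w_mul p hk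
  unfold ck
  rw [HK_succ, I_succ]
  have h2 : (SD.w p k) ^ 3 * ((k : ℤ_[p]) + 1) ^ 3 = 1 := by
    rw [← mul_pow, mul_comm, h1, one_pow]
  linear_combination (HK h k * (h + k) * I p k ^ 3) * h2

/-- the truncated sum -/
noncomputable def ff (h a : ℤ_[p]) : ℤ_[p] := ∑ k ∈ range p, ck p h k * PK a k

lemma tele (h a : ℤ_[p]) (h2 : 2 * h = 1) (k : ℕ) (hk : k < p) :
    ∑ j ∈ range (k + 1), ck p h j * BK a j *
      ((a + 2) ^ 2 * ((a + 1 + j) * (a + 2 + j)) - (a + 1) ^ 2 * ((a + 2 - j) * (a + 1 - j))) =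
    -(2 * (2 * a + 3)) * ((h + k) * (((k : ℤ_[p]) - a - 2) * (a + 1 + k))) * (ck p h k * BK a k) := by
  induction k with
  | zero =>
    simp only [zero_add, sum_range_one, BK, prod_range_zero, Nat.cast_zero, ck, HK, I, one_pow,
      mul_one]
    linear_combination (-(2 * a + 3) * (a + 2) * (a + 1)) * h2
  | succ k ih =>
    rw [sum_range_succ, ih (by omega), BK_succ]
    have h1 := ck_succ p h hk
    push_cast
    have h3 : ck p h k * (h + k) = ck p h (k + 1) * ((k : ℤ_[p]) + 1) ^ 3 := h1.symm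
    have e1 : -(2 * (2 * a + 3)) * ((h + k) * (((k : ℤ_[p]) - a - 2) * (a + 1 + k))) *
        (ck p h k * BK a k) = -(2 * (2 * a + 3)) * ((((k : ℤ_[p]) - a - 2) * (a + 1 + k))) *
        (ck p h (k + 1) * ((k : ℤ_[p]) + 1) ^ 3 * BK a k) := by
      linear_combination (-(2 * (2 * a + 3)) * ((((k : ℤ_[p]) - a - 2) * (a + 1 + k))) * BK a k) * h3
    rw [e1]
    linear_combination ((2 * a + 3) * (ck p h (k + 1) * (BK a k * (((k : ℤ_[p]) - a - 2) *
      (a + 1 + k)))) * (((k : ℤ_[p]) + 1 - a - 2) * (a + 1 + (k + 1)))) * h2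

lemma ff_rec (h a : ℤ_[p]) (h2 : 2 * h = 1) :
    (a + 1) * (a + 2) * ((a + 2) ^ 2 * ff p h (a + 2) - (a + 1) ^ 2 * ff p h a) =
      -(2 * (2 * a + 3)) * (h + (p - 1 : ℕ)) * (ck p h (p - 1) * BK a p) := by
  have hpp := hp.out.two_le
  have h1 := tele p h a h2 (p - 1) (by omega)
  have h3 := BK_succ a (p - 1)
  rw [show p - 1 + 1 = p by omega] at h1 h3
  rw [h3]
  have h4 : (a + 1) * (a + 2) * ((a + 2) ^ 2 * ff p h (a + 2) - (a + 1) ^ 2 * ff p h a) =
      ∑ j ∈ range p, ck p h j * BK a j *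
      ((a + 2) ^ 2 * ((a + 1 + j) * (a + 2 + j)) - (a + 1) ^ 2 * ((a + 2 - j) * (a + 1 - j))) := by
    unfold ff
    rw [mul_sum, mul_sum, ← sum_sub_distrib, mul_sum]
    refine sum_congr rfl fun j _ => ?_
    have e1 := PK_base a j
    have e2 := PK_base2 a j
    linear_combination ((a + 2) ^ 2 * ck p h j) * e2 - ((a + 1) ^ 2 * ck p h j) * e1
  rw [h4, h1]
  ring

lemma ff_nat (h : ℤ_[p]) (h2 : 2 * h = 1) (n : ℕ) (hn : n + 2 < p) :
    ((n : ℤ_[p]) + 2) ^ 2 * ff p h (n + 2) = ((n : ℤ_[p]) + 1) ^ 2 * ff p h n := by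
  have h1 := ff_rec p h n h2
  have h3 : BK (n : ℤ_[p]) p = 0 := by
    unfold BK
    apply prod_eq_zero (mem_range.mpr hn)
    push_cast
    ring
  rw [h3, mul_zero, mul_zero] at h1
  have h4 : ((n : ℤ_[p]) + 1) * (n + 2) ≠ 0 := by
    have : (((n + 1) * (n + 2) : ℕ) : ℤ_[p]) ≠ 0 := by
      rw [Nat.cast_ne_zero]; positivity
    push_cast at this
    exact this
  have h5 := (mul_eq_zero.mp h1).resolve_left h4
  linear_combination h5

lemma ff_zero (h : ℤ_[p]) : ff p h 0 = 1 := by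
  unfold ff
  rw [sum_eq_single 0]
  · simp [ck, HK, I, PK]
  · intro k _ hk
    have : PK (0 : ℤ_[p]) k = 0 := by
      unfold PK
      apply prod_eq_zero (mem_range.mpr (Nat.pos_of_ne_zero hk))
      simp
    rw [this, mul_zero]
  · intro h0
    exact absurd (mem_range.mpr hp.out.pos) h0

lemma ff_even (h : ℤ_[p]) (h2 : 2 * h = 1) (q : ℕ) (hq : 2 * q < p) :
    ff p h ((2 * q : ℕ) : ℤ_[p]) * (q.factorial : ℤ_[p]) ^ 2 = HK h q ^ 2 := by
  induction q with
  | zero => simp [ff_zero, HK]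
  | succ q ih =>
    have h1 := ih (by omega)
    have h3 := ff_nat p h h2 (2 * q) (by omega)
    rw [show ((2 * (q + 1) : ℕ) : ℤ_[p]) = ((2 * q : ℕ) : ℤ_[p]) + 2 by push_cast; ring, HK_succ,
      Nat.factorial_succ]
    generalize ff p h (((2 * q : ℕ) : ℤ_[p]) + 2) = X at *
    generalize ff p h ((2 * q : ℕ) : ℤ_[p]) = Y at *
    push_cast at *
    have h4 : ((q : ℤ_[p]) + 1) ^ 2 * X = (h + q) ^ 2 * Y := by
      have h5 : (4 : ℤ_[p]) * (((q : ℤ_[p]) + 1) ^ 2 * X - (h + q) ^ 2 * Y) = 0 := by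
        linear_combination h3 - (2 * h + 1 + 4 * q) * Y * h2
      have h6 : (4 : ℤ_[p]) ≠ 0 := by norm_num
      exact sub_eq_zero.mp ((mul_eq_zero.mp h5).resolve_left h6)
    linear_combination (q.factorial : ℤ_[p]) ^ 2 * h4 + (h + q) ^ 2 * h1

/-- coefficients of the companion -/
noncomputable def tk (m k : ℕ) : ℤ_[p] := (m.choose k : ℤ_[p]) * ((2 * m - k).factorial : ℤ_[p]) * I p k

noncomputable def TT (m : ℕ) (a : ℤ_[p]) : ℤ_[p] := ∑ k ∈ range (m + 1), tk p m k * PK a k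

lemma tk_succ {m k : ℕ} (hk : k ≤ m) (hm : m + 1 < p) :
    tk p (m + 1) (k + 1) = tk p m k +
      (2 * (m : ℤ_[p]) + 1 - ((k : ℤ_[p]) + 1)) * (2 * m + 2 + ((k : ℤ_[p]) + 1)) * tk p m (k + 1) := by
  have hw := SD.w_mul p (i := k) (by omega)
  unfold tk
  rw [I_succ]
  rcases Nat.lt_or_eq_of_le hk with hlt | rfl
  · obtain ⟨d, rfl⟩ : ∃ d, m = k + 1 + d := ⟨m - k - 1, by omega⟩
    have e1 : 2 * (k + 1 + d + 1) - (k + 1) = (k + 1 + 2 * d) + 1 + 1 := by omega
    have e2 : 2 * (k + 1 + d) - k = (k + 1 + 2 * d) + 1 := by omega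
    have e3 : 2 * (k + 1 + d) - (k + 1) = k + 1 + 2 * d := by omega
    rw [e1, e2, e3, Nat.factorial_succ, Nat.factorial_succ]
    have hc : ((k + 1 + d).choose (k + 1) : ℤ_[p]) * ((k : ℤ_[p]) + 1) =
        ((k + 1 + d).choose k : ℤ_[p]) * ((d : ℤ_[p]) + 1) := by
      have := Nat.choose_succ_right_eq (k + 1 + d) k
      rw [show k + 1 + d - k = d + 1 by omega] at this
      exact_mod_cast this
    have hs : ((k + 1 + d + 1).choose (k + 1) : ℤ_[p]) = ((k + 1 + d).choose k : ℤ_[p]) +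
        ((k + 1 + d).choose (k + 1) : ℤ_[p]) := by
      exact_mod_cast congrArg (Nat.cast (R := ℤ_[p])) (Nat.choose_succ_succ' (k + 1 + d) k)
    rw [hs]
    push_cast
    generalize (((k + 1 + d).choose k : ℕ) : ℤ_[p]) = C1 at *
    generalize (((k + 1 + d).choose (k + 1) : ℕ) : ℤ_[p]) = C2 at *
    generalize (((k + 1 + 2 * d).factorial : ℕ) : ℤ_[p]) = X at *
    linear_combination (C1 * ((k : ℤ_[p]) + 1 + 2 * d + 1) * X * I p k) * hw -
      2 * ((k : ℤ_[p]) + 1 + 2 * d + 1) * X * I p k * SD.w p k * hc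
  · rw [Nat.choose_succ_self, Nat.choose_self, Nat.choose_self,
      show 2 * (k + 1) - (k + 1) = k + 1 by omega, show 2 * k - k = k by omega,
      Nat.factorial_succ]
    push_cast
    linear_combination ((k.factorial : ℤ_[p]) * I p k) * hw

lemma TT_succ {m : ℕ} (hm : m + 1 < p) (a : ℤ_[p]) :
    TT p (m + 1) a = (2 * (m : ℤ_[p]) + 1 - a) * (2 * m + 2 + a) * TT p m a := by
  have h0 : tk p (m + 1) 0 = (2 * (m : ℤ_[p]) + 1) * (2 * m + 2) * tk p m 0 := by
    unfold tk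
    rw [Nat.choose_zero_right, Nat.choose_zero_right,
      show 2 * (m + 1) - 0 = 2 * m + 1 + 1 by omega, show 2 * m - 0 = 2 * m by omega,
      Nat.factorial_succ, Nat.factorial_succ]
    push_cast
    ring
  have h1 : tk p m (m + 1) = 0 := by
    unfold tk
    rw [Nat.choose_succ_self]
    simp
  have h2 : TT p (m + 1) a = ∑ k ∈ range (m + 1), tk p m k * PK a (k + 1) +
      ∑ k ∈ range (m + 1 + 1), (2 * (m : ℤ_[p]) + 1 - k) * (2 * m + 2 + k) * tk p m k * PK a k := by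
    unfold TT
    rw [sum_range_succ', sum_range_succ' (fun k => (2 * (m : ℤ_[p]) + 1 - k) * (2 * m + 2 + k) *
      tk p m k * PK a k), ← add_assoc, ← sum_add_distrib, h0]
    congr 1
    · refine sum_congr rfl fun k hk => ?_
      rw [tk_succ p (by have := mem_range.mp hk; omega) hm]
      push_cast
      ring
    · push_cast
      ring
  rw [h2, sum_range_succ _ (m + 1), h1, mul_zero, zero_mul, add_zero, ← sum_add_distrib]
  unfold TT
  rw [mul_sum]
  refine sum_congr rfl fun k _ => ?_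
  rw [PK_succ]
  ring

lemma TT_closed (m : ℕ) (hm : m < p) (a : ℤ_[p]) :
    TT p m a = ∏ j ∈ range m, ((2 * (j : ℤ_[p]) + 1 - a) * (2 * j + 2 + a)) := by
  induction m with
  | zero => simp [TT, tk, I, PK]
  | succ m ih => rw [TT_succ p hm, ih (by omega), prod_range_succ]; ring

end Pool.Agent.X234.WG
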