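import Pool.Agent.X234.WG.Aff

/-!
# The congruence modulo `p ^ 3`
-/

set_option autoImplicit false

namespace Pool.Agent.X234.WG

open Finset Pool.Agent.H623R3.SW

variable {p : ℕ} [hp : Fact p.Prime]

/-- the gamma side -/
noncomputable def RR (G : ℤ_[p] → ℤ_[p]) (m : ℕ) (h a : ℤ_[p]) : ℤ_[p] :=
  (-1) ^ (m + 1) * G (-(h * a)) ^ 2 * G (h * (a + 1)) ^ 2

lemma arg_y (h : ℤ_[p]) (h2 : 2 * h = 1) (m n : ℕ) (hm : p = 2 * m + 1) (t : ℤ_[p]) :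
    h * (((2 * n : ℕ) : ℤ_[p]) + p * t + 1) = ((n + m : ℕ) : ℤ_[p]) + 1 + p * (h * (t - 1)) := by
  have hpm : (p : ℤ_[p]) = 2 * m + 1 := by exact_mod_cast congrArg (Nat.cast (R := ℤ_[p])) hm
  push_cast
  linear_combination ((n : ℤ_[p]) + m + 1) * h2 + h * hpm

lemma arg_x (h : ℤ_[p]) (h2 : 2 * h = 1) (n : ℕ) (t : ℤ_[p]) :
    -(h * (((2 * n : ℕ) : ℤ_[p]) + p * t)) = -(n : ℤ_[p]) - p * (h * t) := by
  push_cast
  linear_combination (-(n : ℤ_[p])) * h2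

lemma Gx {G : ℤ_[p] → ℤ_[p]} (hp2 : p ≠ 2) (hG : IsMorita p G) (n : ℕ) (hn : n < p)
    (s : ℤ_[p]) : PP p n s * G (p * s) * G (-(n : ℤ_[p]) - p * s) = 1 := by
  have h1 := refl' hp2 hG s n hn
  have h2 := G_add hp2 hG s n hn
  rw [h2] at h1
  have h3 : ((-1 : ℤ_[p]) ^ (n + 1)) * (-1) ^ (n + 1) = 1 := by
    rw [← mul_pow]; norm_num
  linear_combination (-1) ^ (n + 1) * h1 + (1 - PP p n s * G (p * s) * G (-(n : ℤ_[p]) - p * s)) * h3

lemma R_mod {G : ℤ_[p] → ℤ_[p]} (h3 : 3 < p) (hG : IsMorita p G) (h : ℤ_[p]) (h2 : 2 * h = 1)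
    (m n : ℕ) (hm : p = 2 * m + 1) (hn : n ≤ m) (t : ℤ_[p]) :
    (p : ℤ_[p]) ^ 3 ∣ RR G m h (((2 * n : ℕ) : ℤ_[p]) + p * t) * PP p n (h * t) ^ 2 -
      ((-1) ^ (m + 1) * G (p * (-h)) ^ 2) * PP p (n + m) (h * (t - 1)) ^ 2 := by
  unfold RR
  rw [arg_x h h2 n t, arg_y h h2 m n hm t, G_add (by omega) hG _ (n + m) (by omega)]
  have h4 := Gx (by omega) hG n (by omega) (h * t)
  obtain ⟨c, hc⟩ := phi_add h3 hG (h * t) (-h)
  rw [show h * t + -h = h * (t - 1) by ring] at hc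
  have h5 : ((-1 : ℤ_[p]) ^ (n + m + 1)) ^ 2 = 1 := by
    rw [← pow_mul, mul_comm, pow_mul]; norm_num
  generalize G (-(n : ℤ_[p]) - p * (h * t)) = X at *
  generalize G (p * (h * t)) = a1 at *
  generalize G (p * (-h)) = a2 at *
  generalize G (p * (h * (t - 1))) = a3 at *
  generalize PP p n (h * t) = V at *
  generalize PP p (n + m) (h * (t - 1)) = U at *
  generalize ((-1 : ℤ_[p]) ^ (n + m + 1)) = e at *
  generalize ((-1 : ℤ_[p]) ^ (m + 1)) = σ at *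
  have h6 : a3 = a1 * a2 + p ^ 3 * c := by linear_combination hc
  subst h6
  refine ⟨σ * X ^ 2 * U ^ 2 * V ^ 2 * c * (2 * a1 * a2 + p ^ 3 * c), ?_⟩
  linear_combination (σ * X ^ 2 * U ^ 2 * V ^ 2 * (a1 * a2 + p ^ 3 * c) ^ 2) * h5 +
    (σ * a2 ^ 2 * U ^ 2 * (V * a1 * X + 1)) * h4

lemma QQ_HK (h : ℤ_[p]) (h2 : 2 * h = 1) (m n : ℕ) (hm : p = 2 * m + 1) :
    QQ p m n (-h) = HK h n := by
  have hpm : (p : ℤ_[p]) = 2 * m + 1 := by exact_mod_cast congrArg (Nat.cast (R := ℤ_[p])) hm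
  unfold QQ HK
  refine prod_congr rfl fun j _ => ?_
  push_cast
  linear_combination (-(m : ℤ_[p]) - 1) * h2 - h * hpm

lemma G_half {G : ℤ_[p] → ℤ_[p]} (hp2 : p ≠ 2) (hG : IsMorita p G) (h : ℤ_[p])
    (h2 : 2 * h = 1) (m : ℕ) (hm : p = 2 * m + 1) :
    (PP p m (-h) * G (p * (-h))) ^ 2 = (-1) ^ (m + 1) := by
  have hpm : (p : ℤ_[p]) = 2 * m + 1 := by exact_mod_cast congrArg (Nat.cast (R := ℤ_[p])) hm
  have h1 := refl' hp2 hG (-h) m (by omega)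
  have h4 := G_add hp2 hG (-h) m (by omega)
  have e : -(m : ℤ_[p]) - p * (-h) = (m : ℤ_[p]) + 1 + p * (-h) := by
    linear_combination (2 * h) * hpm + (2 * (m : ℤ_[p]) + 1) * h2
  rw [e, h4] at h1
  have h3 : ((-1 : ℤ_[p]) ^ (m + 1)) * (-1) ^ (m + 1) = 1 := by
    rw [← mul_pow]; norm_num
  linear_combination h1 - (PP p m (-h) * G (p * (-h))) ^ 2 * h3

lemma base_eq {G : ℤ_[p] → ℤ_[p]} (h3 : 3 < p) (hG : IsMorita p G) (h : ℤ_[p])
    (h2 : 2 * h = 1) (m n : ℕ) (hm : p = 2 * m + 1) (hn : n ≤ m) :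
    ff p h ((2 * n : ℕ) : ℤ_[p]) = RR G m h ((2 * n : ℕ) : ℤ_[p]) := by
  have h1 := ff_even p h h2 n (by omega)
  have hx := arg_x h h2 n 0
  have hy := arg_y h h2 m n hm 0
  rw [mul_zero, add_zero] at hx hy
  have h4 := Gx (by omega) hG n (by omega) 0
  rw [mul_zero, G_zero (by omega) hG, mul_one] at h4
  have h5 := G_half (by omega) hG h h2 m hm
  have hPP : PP p n 0 = (n.factorial : ℤ_[p]) := by
    unfold PP
    rw [← prod_range_add_one_eq_factorial]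
    push_cast
    exact prod_congr rfl fun i _ => by ring
  rw [hPP] at h4
  unfold RR
  rw [hx, hy, mul_zero, mul_zero, G_add (by omega) hG _ (n + m) (by omega),
    show h * (0 - 1) = -h by ring, add_comm n m, PP_add, QQ_HK h h2 m n hm]
  have h6 : ((-1 : ℤ_[p]) ^ (m + n + 1)) ^ 2 = 1 := by
    rw [← pow_mul, mul_comm, pow_mul]; norm_num
  have h7 : ((-1 : ℤ_[p]) ^ (m + 1)) ^ 2 = 1 := by
    rw [← pow_mul, mul_comm, pow_mul]; norm_num
  have h8 : (n.factorial : ℤ_[p]) ^ 2 ≠ 0 :=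
    pow_ne_zero _ (by exact_mod_cast (Nat.factorial_pos n).ne')
  apply mul_right_cancel₀ h8
  rw [h1]
  generalize (n.factorial : ℤ_[p]) = K at *
  generalize G (-(n : ℤ_[p]) - 0) = X at *
  generalize HK h n = HH at *
  generalize PP p m (-h) = U at *
  generalize G (p * (-h)) = a2 at *
  generalize ((-1 : ℤ_[p]) ^ (m + n + 1)) = e at *
  generalize ((-1 : ℤ_[p]) ^ (m + 1)) = σ at *
  linear_combination (-(σ * X ^ 2 * (U * HH) ^ 2 * a2 ^ 2 * K ^ 2)) * h6 -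
    (σ * (U * HH) ^ 2 * a2 ^ 2 * (K * X + 1)) * h4 - (σ * HH ^ 2) * h5 - HH ^ 2 * h7

lemma ff_symm (h a : ℤ_[p]) : ff p h (-1 - a) = ff p h a := by
  unfold ff
  exact sum_congr rfl fun k _ => by rw [PK_symm]

lemma RR_symm (G : ℤ_[p] → ℤ_[p]) (m : ℕ) (h a : ℤ_[p]) : RR G m h (-1 - a) = RR G m h a := by
  unfold RR
  rw [show -(h * (-1 - a)) = h * (a + 1) by ring, show h * (-1 - a + 1) = -(h * a) by ring]
  ring

lemma base_eq' {G : ℤ_[p] → ℤ_[p]} (h3 : 3 < p) (hG : IsMorita p G) (h : ℤ_[p])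
    (h2 : 2 * h = 1) (m n : ℕ) (hm : p = 2 * m + 1) (hn : n ≤ m) :
    ff p h (((2 * n : ℕ) : ℤ_[p]) + p * (-1)) = RR G m h (((2 * n : ℕ) : ℤ_[p]) + p * (-1)) := by
  have hpm : (p : ℤ_[p]) = 2 * m + 1 := by exact_mod_cast congrArg (Nat.cast (R := ℤ_[p])) hm
  have e : ((2 * n : ℕ) : ℤ_[p]) + p * (-1) = -1 - ((2 * (m - n) : ℕ) : ℤ_[p]) := by
    rw [hpm]
    push_cast [Nat.cast_sub hn]
    ring
  rw [e, ff_symm, RR_symm]
  exact base_eq h3 hG h h2 m (m - n) hm (by omega)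

lemma diff (h : ℤ_[p]) (h2 : 2 * h = 1) (m n : ℕ) (hm : p = 2 * m + 1) :
    ∃ S : ℤ_[p] → ℤ_[p], A2 S ∧ ∀ t, ff p h (((2 * n : ℕ) : ℤ_[p]) + p * t) =
      I p (2 * m) * TT p m (((2 * n : ℕ) : ℤ_[p]) + p * t) + p * S t := by
  have hd : ∀ k, ∃ d : ℤ_[p], k < p → ck p h k - tk p m k * I p (2 * m) = p * d := by
    intro k
    by_cases hk : k < p
    · obtain ⟨d, hd⟩ := delta_dvd h h2 m k hm hk
      exact ⟨d, fun _ => hd⟩
    · exact ⟨0, fun h => absurd h hk⟩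
  choose d hd using hd
  refine ⟨fun t => ∑ k ∈ range p, d k * PK (((2 * n : ℕ) : ℤ_[p]) + p * t) k, ?_, fun t => ?_⟩
  · apply A2.sum
    intro k _
    apply (A2.const (d k)).mul
    unfold PK
    apply A2.prod
    intro i _
    have e1 := (A2.lin (p := p) ((i : ℤ_[p]) - ((2 * n : ℕ) : ℤ_[p])) (-1))
    have e2 := (A2.lin (p := p) (((2 * n : ℕ) : ℤ_[p]) + 1 + i) 1)
    have e3 := e1.mul e2
    convert e3 using 2 with t
    ring
  · have hT : TT p m (((2 * n : ℕ) : ℤ_[p]) + p * t) =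
        ∑ k ∈ range p, tk p m k * PK (((2 * n : ℕ) : ℤ_[p]) + p * t) k := by
      unfold TT
      apply sum_subset
      · intro k hk
        have := mem_range.mp hk
        exact mem_range.mpr (by omega)
      · intro k _ hk2
        have : m < k := by
          by_contra hc
          exact hk2 (mem_range.mpr (by omega))
        unfold tk
        rw [Nat.choose_eq_zero_of_lt this]
        simp
    rw [hT, mul_sum, mul_sum, ← sum_add_distrib]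
    unfold ff
    refine sum_congr rfl fun k hk => ?_
    linear_combination PK (((2 * n : ℕ) : ℤ_[p]) + p * t) k * hd k (mem_range.mp hk)

lemma A2_PP (h : ℤ_[p]) (n : ℕ) : A2 (p := p) (fun t => PP p n (h * t)) := by
  unfold PP
  apply A2.prod
  intro i _
  have e1 := (A2.lin (p := p) ((i : ℤ_[p]) + 1) h)
  convert e1 using 2 with t
  ring

lemma A2_PP' (h : ℤ_[p]) (n : ℕ) : A2 (p := p) (fun t => PP p n (h * (t - 1))) := by
  unfold PP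
  apply A2.prod
  intro i _
  have e1 := (A2.lin (p := p) ((i : ℤ_[p]) + 1 - p * h) h)
  convert e1 using 2 with t
  ring

theorem main {G : ℤ_[p] → ℤ_[p]} (h3 : 3 < p) (hG : IsMorita p G) (h : ℤ_[p])
    (h2 : 2 * h = 1) (m n : ℕ) (hm : p = 2 * m + 1) (hn : n ≤ m) (t : ℤ_[p]) :
    (p : ℤ_[p]) ^ 3 ∣ ff p h (((2 * n : ℕ) : ℤ_[p]) + p * t) -
      RR G m h (((2 * n : ℕ) : ℤ_[p]) + p * t) := by
  obtain ⟨S, hS, hf⟩ := diff h h2 m n hm
  obtain ⟨Ψ1, hΨ1, hr1⟩ := ratio h n (by omega)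
  obtain ⟨Ψ2, hΨ2, hr2⟩ := ratio h (n + m) (by omega)
  have hVS : A2 (p := p) (fun t => PP p n (h * t) * PP p n (h * t) * S t) :=
    ((A2_PP h n).mul (A2_PP h n)).mul hS
  have hU : A2 (p := p) (fun t => PP p (n + m) (h * (t - 1)) * PP p (n + m) (h * (t - 1))) :=
    (A2_PP' h (n + m)).mul (A2_PP' h (n + m))
  have hΨ : A3 (p := p) (fun t => Ψ1 t * Ψ2 t) := hΨ1.mul hΨ2
  obtain ⟨v0, v1, hVS⟩ := hVS
  obtain ⟨u0, u1, hU⟩ := hU
  obtain ⟨c, d, hΨ⟩ := hΨ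
  have hR := R_mod h3 hG h h2 m n hm hn
  set κ : ℤ_[p] := (-1) ^ (m + 1) * G (p * (-h)) ^ 2 with hκ
  set C' : ℤ_[p] := (-4) ^ m * I p (2 * m) with hC'
  -- the companion
  have hg : ∀ t : ℤ_[p], (p : ℤ_[p]) ^ 3 ∣ PP p n (h * t) ^ 2 *
      (I p (2 * m) * TT p m (((2 * n : ℕ) : ℤ_[p]) + p * t)) -
      C' * (PP p (n + m) (h * (t - 1)) ^ 2 * (Ψ1 t * Ψ2 t)) := by
    intro t
    rw [TT_eq h h2 m n hm t]
    obtain ⟨x, hx⟩ := hr1 t
    obtain ⟨y, hy⟩ := hr2 t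
    have e1 := PP_add (p := p) n m (h * t)
    have e2 := PP_add (p := p) n m (h * (t - 1))
    rw [e1] at hy
    rw [e2] at hy ⊢
    rw [hC']
    generalize PP p n (h * t) = V at *
    generalize PP p n (h * (t - 1)) = W at *
    generalize QQ p n m (h * t) = A at *
    generalize QQ p n m (h * (t - 1)) = B at *
    generalize (-4 : ℤ_[p]) ^ m = q at *
    generalize I p (2 * m) = I2 at *
    refine ⟨I2 * q * (x * V * A * B + W * Ψ1 t * y * B), ?_⟩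
    linear_combination (I2 * q * V * A * B) * hx + (I2 * q * W * Ψ1 t * B) * hy
  -- `p` divides `C' c - κ`
  have hu : ∀ t : ℤ_[p], IsUnit (PP p (n + m) (h * (t - 1))) := fun t =>
    PP_isUnit (by omega) _
  have he : (p : ℤ_[p]) ∣ C' * c - κ := by
    obtain ⟨x1, hx1⟩ := hR 0
    obtain ⟨x2, hx2⟩ := hg 0
    obtain ⟨x3, hx3⟩ := hΨ 0
    have hf0 := hf 0
    have hb := base_eq h3 hG h h2 m n hm hn
    simp only [mul_zero, add_zero] at hx1 hx2 hx3 hf0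
    rw [← hb, hf0] at hx1
    obtain ⟨u, hu'⟩ := hu 0
    have hinv : PP p (n + m) (h * (0 - 1)) * ((u⁻¹ : ℤ_[p]ˣ) : ℤ_[p]) = 1 := by
      rw [← hu', Units.mul_inv]
    generalize ((u⁻¹ : ℤ_[p]ˣ) : ℤ_[p]) = ι at hinv
    generalize PP p (n + m) (h * (0 - 1)) = U at *
    generalize PP p n 0 = V at *
    generalize I p (2 * m) * TT p m ((2 * n : ℕ) : ℤ_[p]) = g at *
    refine ⟨ι ^ 2 * (p ^ 2 * x1 - p ^ 2 * x2 - V ^ 2 * S 0 - p ^ 2 * C' * U ^ 2 * x3), ?_⟩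
    linear_combination ι ^ 2 * hx1 - ι ^ 2 * hx2 - (C' * U ^ 2 * ι ^ 2) * hx3 +
      (-(C' * c - κ) * (U * ι + 1)) * hinv
  obtain ⟨e, he⟩ := he
  -- affine form
  have key : ∀ t : ℤ_[p], (p : ℤ_[p]) ^ 3 ∣ PP p n (h * t) ^ 2 *
      (ff p h (((2 * n : ℕ) : ℤ_[p]) + p * t) - RR G m h (((2 * n : ℕ) : ℤ_[p]) + p * t)) -
      (p * (v0 + e * u0) + p ^ 2 * (v1 + e * u1 + C' * d * u0) * t) := by
    intro t
    obtain ⟨x1, hx1⟩ := hR t
    obtain ⟨x2, hx2⟩ := hg t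
    obtain ⟨x3, hx3⟩ := hΨ t
    obtain ⟨x4, hx4⟩ := hVS t
    obtain ⟨x5, hx5⟩ := hU t
    rw [hf t]
    simp only at hx4 hx5 hx3
    generalize PP p (n + m) (h * (t - 1)) = U at *
    generalize PP p n (h * t) = V at *
    generalize I p (2 * m) * TT p m (((2 * n : ℕ) : ℤ_[p]) + p * t) = g at *
    generalize RR G m h (((2 * n : ℕ) : ℤ_[p]) + p * t) = r at *
    generalize Ψ1 t * Ψ2 t = ψ at *
    refine ⟨x2 - x1 + C' * U ^ 2 * x3 + x4 + e * x5 + C' * d * t * (u1 * t + p * x5), ?_⟩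
    linear_combination hx2 - hx1 + (C' * U ^ 2) * hx3 + p * hx4 + (p * e + p ^ 2 * C' * d * t) * hx5 +
      U ^ 2 * he
  have k0 := key 0
  have k1 := key (-1)
  rw [mul_zero, mul_zero, mul_zero, add_zero, base_eq h3 hG h h2 m n hm hn] at k0
  rw [base_eq' h3 hG h h2 m n hm hn] at k1
  obtain ⟨y0, hy0⟩ := k0
  obtain ⟨y1, hy1⟩ := k1
  obtain ⟨y, hy⟩ := key t
  have hfin : (p : ℤ_[p]) ^ 3 ∣ PP p n (h * t) ^ 2 *
      (ff p h (((2 * n : ℕ) : ℤ_[p]) + p * t) - RR G m h (((2 * n : ℕ) : ℤ_[p]) + p * t)) := by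
    refine ⟨y - y0 - y0 * t + y1 * t, ?_⟩
    linear_combination hy - (1 + t) * hy0 + t * hy1
  exact (((PP_isUnit (p := p) (n := n) (by omega) (h * t)).pow 2).dvd_mul_left).mp hfin

end Pool.Agent.X234.WG
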